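import Pool.Agent.H73.TS.TargetsB
import Pool.Agent.H83.TS.SEP

/-!
Board `ts_modules`, letter SEQ: unit slabs from separating hyperplanes, width version.
-/

open MeasureTheory Set Metric
open scoped ENNReal

namespace Pool.Agent.H30.TS

open Pool.Agent.H73.TS

theorem seq : T_SEQ := by
  intro d L K hKc hK hne hw f c hf
  have hKne : K.Nonempty := hne.mono interior_subset
  set F : E d →L[ℝ] ℝ := f.comp (L.symm : E d →L[ℝ] E d) with hF
  set g : E d := (InnerProductSpace.toDual ℝ (E d)).symm F with hg
  have hgin : ∀ b : E d, inner ℝ g b = f (L.symm b) := by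
    intro b
    rw [hg, InnerProductSpace.toDual_symm_apply]
    rfl
  have hgF : ‖g‖ = ‖F‖ := by
    rw [hg, LinearIsometryEquiv.norm_map]
  have hgne : g ≠ 0 := by
    intro h0
    apply hf
    ext x
    have := hgin (L x)
    rw [h0] at this
    simpa using this.symm
  have hgpos : 0 < ‖g‖ := norm_pos_iff.mpr hgne
  obtain ⟨xM, hxM, hM⟩ := hKc.exists_isMaxOn hKne f.continuous.continuousOn
  obtain ⟨xm, hxm, hm⟩ := hKc.exists_isMinOn hKne f.continuous.continuousOn
  have hMm : ‖g‖ ≤ f xM - f xm := by
    obtain ⟨x, hx, y, hy, h⟩ := hw f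
    have h1 : f x ≤ f xM := hM hx
    have h2 : f xm ≤ f y := hm hy
    rw [hgF, hF]
    linarith
  refine ⟨(1 / ‖g‖) • g, (c - f xM) / ‖g‖ + 1 / 2, ?_, ?_⟩
  · rw [norm_smul, Real.norm_eq_abs, abs_of_pos (by positivity)]
    field_simp
  · intro u hu
    have hux : inner ℝ ((1 / ‖g‖) • g) (L u) = f u / ‖g‖ := by
      rw [real_inner_smul_left, hgin]
      simp
      ring
    rw [hux]
    rcases Pool.Agent.H83.TS.side K hKc.isClosed hK hne f c u hu with h | h
    · left
      refine ⟨?_, h⟩
      have h1 := h xM hxM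
      rw [map_add] at h1
      rw [add_sub_cancel_right]
      exact div_le_div_of_nonneg_right (by linarith) hgpos.le
    · right
      refine ⟨?_, h⟩
      have h1 := h xm hxm
      rw [map_add] at h1
      rw [add_assoc, add_halves, div_add_one hgpos.ne']
      exact div_le_div_of_nonneg_right (by linarith) hgpos.le

end Pool.Agent.H30.TS
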